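import Pool.Agent.H964.QC.Stm

set_option autoImplicit false

/-!
# MP_f3a553_pr: the variance of a block
-/

open MeasureTheory ProbabilityTheory Filter Finset

namespace Pool.Agent.H187.QC

open Pool.Agent.H964.QC

theorem RR_mono (hrr : ∀ n : ℕ, 0 < rr n) {a b : ℕ} (h : a ≤ b) : RR a ≤ RR b := by
  unfold RR
  exact Finset.sum_le_sum_of_subset_of_nonneg (Finset.Icc_subset_Icc_right h)
    fun n _ _ => (hrr n).le

theorem t_B2 : S_B2 := by
  intro hRR hUU _hOV hGS hM2 C0 κ hC0 _hκ
  obtain ⟨rr0, -, -, -, rrlog, -, -⟩ := hRR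
  obtain ⟨uu1, CU, hCU, uu2⟩ := hUU
  obtain ⟨CG, hCG, gs⟩ := hGS C0 hC0
  refine ⟨CG + CU + 1, by linarith, ?_⟩
  intro V _ _ N0 W Ω _ P _ s2 η w t T B L' hs hnoise ht hB htT hL' hL1 hgood
  obtain ⟨g1, g2, -, -⟩ := gs V N0 W w t T B ht hB htT hgood
  obtain ⟨-, m2, -⟩ := hM2 V C0 N0 W Ω P s2 κ η hs.le hnoise w hgood.nonneg T (by omega)
  have hlogB : 0 ≤ Real.log B := Real.log_nonneg hB
  set D : ℝ := RR (t + T) - RR t with hD
  have hov : ∀ m, 0 ≤ ov W w m := fun m => by
    unfold ov
    exact Finset.sum_nonneg fun z _ => sq_nonneg _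
  have hL0 : 0 < L' := by linarith
  have hsL : s2 * L' = 1 - s2 * RR (t + T) := by
    rw [hL']
    field_simp
  have hsL0 : 0 < s2 * L' := mul_pos hs hL0
  -- comparison for `n ≤ t + T`
  have hn : ∀ n : ℕ, n ≤ t + T → s2 * L' ≤ 1 - s2 * RR n := by
    intro n hn
    have := mul_le_mul_of_nonneg_left (RR_mono rr0 hn) hs.le
    linarith
  have hup : ∀ n : ℕ, n ≤ t + T → s2 * UU s2 n ≤ 1 / L' := by
    intro n hnn
    have h1 := hn n hnn
    have h2 := (uu1 s2 n hs.le (by linarith)).2
    have h3 : 1 / (1 - s2 * RR n) ≤ 1 / (s2 * L') := one_div_le_one_div_of_le hsL0 h1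
    have h4 : s2 * UU s2 n ≤ s2 * (1 / (s2 * L')) :=
      mul_le_mul_of_nonneg_left (h2.trans h3) hs.le
    have h5 : s2 * (1 / (s2 * L')) = 1 / L' := by
      field_simp
    rw [h5] at h4
    exact h4
  have hUpos : ∀ n : ℕ, n ≤ t + T → 0 ≤ s2 * UU s2 n := by
    intro n hnn
    have h1 := hn n hnn
    have h2 := (uu1 s2 n hs.le (by linarith)).1
    exact mul_nonneg hs.le (by linarith)
  rw [m2, Finset.mul_sum]
  refine ⟨?_, fun htle hDL => ?_⟩
  · have h1 : ∀ m ∈ Finset.Icc 1 T, s2 * (ov W w m * UU s2 (T - m)) ≤ ov W w m * (1 / L') := by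
      intro m _
      have h2 := mul_le_mul_of_nonneg_left (hup (T - m) (by omega)) (hov m)
      linarith
    refine (Finset.sum_le_sum h1).trans ?_
    rw [← Finset.sum_mul, mul_one_div]
    refine div_le_div_of_nonneg_right (g1.trans ?_) hL0.le
    have : 0 ≤ (CU + 1) * (1 + Real.log B) := mul_nonneg (by linarith) (by linarith)
    linarith
  · have hlow : ∀ m ∈ Finset.Icc 1 (T / 2),
        ov W w m * (1 / (L' + (CU + 1))) ≤ s2 * (ov W w m * UU s2 (T - m)) := by
      intro m hm
      rw [Finset.mem_Icc] at hm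
      have hm2 : T ≤ 2 * (T - m) := by omega
      have hm3 : 1 ≤ T - m := by omega
      have h1 := hn (T - m) (by omega)
      have h2 := uu2 s2 (T - m) hs.le (by linarith)
      have h3 : RR (t + T) - RR (T - m) ≤ 1 := by
        have h4 := rrlog (T - m) (t + T) hm3 (by omega)
        have h5 : (((t + T : ℕ) : ℝ) / ((T - m : ℕ) : ℝ)) ≤ 4 := by
          have h6 : (0 : ℝ) < ((T - m : ℕ) : ℝ) := by exact_mod_cast hm3
          rw [div_le_iff₀ h6]
          have h7 : t + T ≤ 4 * (T - m) := by omega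
          exact_mod_cast h7
        have h6 : (0 : ℝ) < (((t + T : ℕ) : ℝ) / ((T - m : ℕ) : ℝ)) := by
          have h7 : (0 : ℝ) < ((T - m : ℕ) : ℝ) := by exact_mod_cast hm3
          have h8 : (0 : ℝ) < ((t + T : ℕ) : ℝ) := by
            have : 0 < t + T := by omega
            exact_mod_cast this
          exact div_pos h8 h7
        have h7 := Real.log_le_log h6 h5
        have h8 : Real.log 4 = 2 * Real.log 2 := by
          rw [show (4 : ℝ) = 2 ^ 2 by norm_num, Real.log_pow]
          norm_num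
        have h9 := Real.log_two_lt_d9
        rw [h8] at h7
        norm_num at h9
        linarith
      have h5 : 0 < 1 - s2 * RR (T - m) + CU * s2 := by
        have : 0 < CU * s2 := mul_pos (by linarith) hs
        linarith
      have h6 : 1 - s2 * RR (T - m) + CU * s2 ≤ s2 * (L' + (CU + 1)) := by
        have h7 : s2 * (RR (t + T) - RR (T - m)) ≤ s2 * 1 := mul_le_mul_of_nonneg_left h3 hs.le
        nlinarith
      have h7 : 1 / (s2 * (L' + (CU + 1))) ≤ UU s2 (T - m) :=
        (one_div_le_one_div_of_le h5 h6).trans h2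
      have h8 : 1 / (L' + (CU + 1)) ≤ s2 * UU s2 (T - m) := by
        have h9 := mul_le_mul_of_nonneg_left h7 hs.le
        have h10 : s2 * (1 / (s2 * (L' + (CU + 1)))) = 1 / (L' + (CU + 1)) := by
          have : L' + (CU + 1) ≠ 0 := by positivity
          field_simp
        rw [h10] at h9
        exact h9
      have h9 := mul_le_mul_of_nonneg_left h8 (hov m)
      linarith
    have hsub : ∑ m ∈ Finset.Icc 1 (T / 2), s2 * (ov W w m * UU s2 (T - m)) ≤
        ∑ m ∈ Finset.Icc 1 T, s2 * (ov W w m * UU s2 (T - m)) := by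
      refine Finset.sum_le_sum_of_subset_of_nonneg
        (Finset.Icc_subset_Icc_right (Nat.div_le_self T 2)) fun m hm _ => ?_
      have h1 := hUpos (T - m) (by omega)
      have h2 := mul_nonneg (hov m) h1
      linarith
    have hS := (Finset.sum_le_sum hlow).trans hsub
    rw [← Finset.sum_mul, mul_one_div] at hS
    have hg := g2 htle
    have hS0 : 0 ≤ ∑ m ∈ Finset.Icc 1 (T / 2), ov W w m := Finset.sum_nonneg fun m _ => hov m
    have hden : 0 < L' + (CU + 1) := by linarith
    refine le_trans ?_ hS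
    rw [div_le_div_iff₀ hL0 hden]
    set S : ℝ := ∑ m ∈ Finset.Icc 1 (T / 2), ov W w m with hSdef
    set N : ℝ := D - CG * (1 + Real.log B) with hN
    have hN1 : D - (CG + CU + 1) * (1 + Real.log B) ≤ N - (CU + 1) := by
      have : 0 ≤ (CU + 1) * Real.log B := mul_nonneg (by linarith) hlogB
      rw [hN]
      nlinarith
    have hND : N ≤ L' := by
      have : 0 ≤ CG * (1 + Real.log B) := mul_nonneg (by linarith) (by linarith)
      linarith
    by_cases hN0 : N ≤ 0
    · have h1 : (D - (CG + CU + 1) * (1 + Real.log B)) * (L' + (CU + 1)) ≤ 0 :=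
        mul_nonpos_of_nonpos_of_nonneg (by linarith) hden.le
      have h2 : 0 ≤ S * L' := mul_nonneg hS0 hL0.le
      linarith
    · push Not at hN0
      have h1 : (D - (CG + CU + 1) * (1 + Real.log B)) * (L' + (CU + 1)) ≤
          (N - (CU + 1)) * (L' + (CU + 1)) := mul_le_mul_of_nonneg_right hN1 hden.le
      have h2 : N * L' ≤ S * L' := mul_le_mul_of_nonneg_right hg hL0.le
      have h3 : (CU + 1) * N ≤ (CU + 1) * L' := mul_le_mul_of_nonneg_left hND (by linarith)
      nlinarith [sq_nonneg (CU + 1)]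

end Pool.Agent.H187.QC
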